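import Pool.Agent.H76.GU.Targets
import Pool.Agent.H34.GM.MSR

/-!
Row SGV of the board gu (helper53): the part of the singular matrices vanishes on cusp forms.
-/

set_option autoImplicit false


namespace Pool.Agent.H53.GU

open MeasureTheory Pool.Agent.H34.GM Pool.Agent.H34.GZ Pool.Agent.H34.GU Pool.Agent.H76.GU

/-! ### algebra -/

lemma cR_mul {m : ℕ} (α β : ZM m) : cR (α * β) = cR α * cR β := by
  unfold cR
  exact Matrix.map_mul (f := Int.castRingHom ℝ)

lemma det_cR {m : ℕ} (α : ZM m) : (cR α).det = ((α.det : ℤ) : ℝ) := by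
  unfold cR
  exact ((Int.castRingHom ℝ).map_det α).symm

lemma abs_det_unit {m : ℕ} {γ : ZM m} (hγ : IsUnit γ) : |(cR γ).det| = 1 := by
  rw [det_cR]
  have h1 : IsUnit γ.det := (Matrix.isUnit_iff_isUnit_det γ).1 hγ
  rcases Int.isUnit_iff.1 h1 with h | h <;> rw [h] <;> norm_num

lemma kk_left {m : ℕ} (r : ℝ) (w z α g : Mat m) (hw : |w.det| = 1) :
    kk r (w * z) (w * α) g = kk r z α g := by
  have h0 : IsUnit w.det := by
    rw [isUnit_iff_ne_zero]
    intro h
    rw [h, abs_zero] at hw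
    norm_num at hw
  have h1 : aN (w * z) = aN z := by
    unfold aN
    rw [Matrix.det_mul, abs_mul, hw, one_mul]
  have h2 : (w * z)⁻¹ * (w * α) * g = z⁻¹ * α * g := by
    rw [Matrix.mul_inv_rev, Matrix.mul_assoc z⁻¹ w⁻¹ (w * α),
      Matrix.nonsing_inv_mul_cancel_left _ _ h0]
  unfold kk
  rw [h1, h2]

lemma nk_mul {m k : ℕ} (u : V m) (α : ZM m) (hα : ∀ i j : Fin m, (i : ℕ) < k → α i j = 0) :
    (1 + nk k u) * cR α = cR α := by
  rw [Matrix.add_mul, Matrix.one_mul]
  have h0 : nk k u * cR α = 0 := by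
    ext i j
    rw [Matrix.mul_apply, Matrix.zero_apply]
    refine Finset.sum_eq_zero fun l _ => ?_
    by_cases hl : (l : ℕ) < k
    · have h1 : cR α l j = 0 := by
        show ((α l j : ℤ) : ℝ) = 0
        rw [hα l j hl, Int.cast_zero]
      rw [h1, mul_zero]
    · have h1 : nk k u i l = 0 := by
        show (if (l : ℕ) < k ∧ k ≤ (i : ℕ) then u i l else 0) = 0
        rw [if_neg fun h => hl h.1]
      rw [h1, zero_mul]
  rw [h0, add_zero]

lemma type_det {m k : ℕ} (hk : 0 < k) (hkm : k < m) {α γ : ZM m} (hγ : IsUnit γ)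
    (h : Ker k (γ * α)) : α.det = 0 := by
  have hm : 0 < m := hk.trans hkm
  have h1 : Matrix.vecMul (Pi.single (⟨0, hm⟩ : Fin m) (1 : ℤ)) (γ * α) = 0 := by
    refine (h _).2 ?_
    intro j hj
    refine Pi.single_eq_of_ne ?_ _
    rintro rfl
    exact absurd hj (not_le.2 hk)
  have h2 : (γ * α).det = 0 := by
    refine Matrix.exists_vecMul_eq_zero_iff.1 ⟨_, ?_, h1⟩
    intro h3
    have h4 := congrFun h3 (⟨0, hm⟩ : Fin m)
    rw [Pi.single_eq_same, Pi.zero_apply] at h4
    exact one_ne_zero h4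
  rw [Matrix.det_mul] at h2
  have h3 : IsUnit γ.det := (Matrix.isUnit_iff_isUnit_det γ).1 hγ
  exact (mul_eq_zero.1 h2).resolve_left h3.ne_zero

lemma type_unique (hORB : T_ORB) {m k k' : ℕ} (hk : k ≤ m) (hk' : k' ≤ m) {α : ZM m}
    (h : ∃ γ : ZM m, IsUnit γ ∧ Ker k (γ * α)) (h' : ∃ γ : ZM m, IsUnit γ ∧ Ker k' (γ * α)) :
    k' = k := by
  obtain ⟨γ, ⟨w, rfl⟩, h1⟩ := h
  obtain ⟨γ', hγ', h2⟩ := h'
  refine (hORB m).2.2.1 k k' ((w : ZM m) * α) hk hk' (γ' * ((w⁻¹ : (ZM m)ˣ) : ZM m))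
    (hγ'.mul (w⁻¹).isUnit) h1 ?_
  have h3 : γ' * ((w⁻¹ : (ZM m)ˣ) : ZM m) * ((w : ZM m) * α) = γ' * α := by
    rw [Matrix.mul_assoc, ← Matrix.mul_assoc _ (w : ZM m) α]
    have h4 : ((w⁻¹ : (ZM m)ˣ) : ZM m) * (w : ZM m) = 1 := w.inv_mul
    rw [h4, Matrix.one_mul]
  rw [h3]
  exact h2

/-! ### measure theory -/

lemma swap {m : ℕ} (D : Set (V m)) (f : ZM m → V m → ℂ) (hf : ∀ α, Measurable (f α))
    (hfin : ∫⁻ z in D, ∑' α : ZM m, ENNReal.ofReal ‖f α z‖ ∂(hm m) < ⊤) (p : ZM m → Prop)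
    [DecidablePred p] :
    (Summable fun α => ∫ z in D, (if p α then f α z else 0) ∂(hm m)) ∧
      ∫ z in D, ∑' α : ZM m, (if p α then f α z else 0) ∂(hm m) =
        ∑' α : ZM m, ∫ z in D, (if p α then f α z else 0) ∂(hm m) := by
  have hcount : Countable (ZM m) := inferInstanceAs (Countable (Fin m → Fin m → ℤ))
  have hm1 : ∀ α, Measurable fun z => if p α then f α z else 0 := by
    intro α
    by_cases h : p α
    · simp only [if_pos h]
      exact hf α
    · simp only [if_neg h]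
      exact measurable_const
  have h1 : ∑' α : ZM m, ∫⁻ z in D, ENNReal.ofReal ‖f α z‖ ∂(hm m) ≠ ⊤ := by
    rw [← lintegral_tsum fun α => ((hf α).norm.ennreal_ofReal).aemeasurable]
    exact hfin.ne
  have h2 : ∀ α, ∫⁻ z in D, ‖(if p α then f α z else 0)‖ₑ ∂(hm m) ≤
      ∫⁻ z in D, ENNReal.ofReal ‖f α z‖ ∂(hm m) := by
    intro α
    refine lintegral_mono fun z => ?_
    by_cases h : p α
    · simp only [if_pos h]
      rw [ofReal_norm]
    · simp only [if_neg h]
      rw [enorm_zero]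
      exact zero_le
  have h3 : ∑' α : ZM m, ∫⁻ z in D, ‖(if p α then f α z else 0)‖ₑ ∂(hm m) ≠ ⊤ :=
    ne_top_of_le_ne_top h1 (ENNReal.tsum_le_tsum h2)
  refine ⟨?_, integral_tsum (fun α => (hm1 α).aestronglyMeasurable) h3⟩
  refine Summable.of_norm_bounded (ENNReal.summable_toReal h3) fun α => ?_
  have h4 := norm_integral_le_lintegral_norm (μ := (hm m).restrict D)
    (fun z => if p α then f α z else 0)
  refine h4.trans (le_of_eq ?_)
  congr 1
  refine lintegral_congr fun z => ?_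
  rw [ofReal_norm]

open Classical in
/-- the summands -/
noncomputable def fS {m N : ℕ} (Ψ : Mat m → ℂ) (F : Mat m → VN m N → ℂ) (r : ℝ) (g : Mat m)
    (x : VN m N) (α : ZM m) (z : V m) : ℂ :=
  if (mt z).det = 0 then 0 else Ψ (kk r (mt z) (cR α) g) * F (mt z) (ac N α x)

lemma meas_pair {m : ℕ} (f : Mat m → Mat m → Mat m) (hf : Measurable
    (fun p : V m × V m => ((fun i j => f (mt p.1) (mt p.2) i j) : V m))) (g : V m) :
    Measurable (fun z : V m => ((fun i j => f (mt z) (mt g) i j) : V m)) :=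
  hf.comp (measurable_id.prodMk measurable_const : Measurable (fun z : V m => (z, g)))

lemma meas_fun {m : ℕ} (Φ : Mat m → ℂ) (hs : Measurable (fun z : V m => Φ (mt z)))
    (f : V m → Mat m) (hf : Measurable (fun z : V m => ((fun i j => f z i j) : V m))) :
    Measurable (fun z : V m => Φ (f z)) := hs.comp hf

lemma fS_meas {m N : ℕ} (Ψ : Mat m → ℂ) (hΨ : Continuous Ψ) (F : Mat m → VN m N → ℂ)
    (hF : ∀ y, ContinuousOn (fun g => F g y) {g | g.det ≠ 0}) (r : ℝ) (g : Mat m) (x : VN m N)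
    (α : ZM m) : Measurable (fS Ψ F r g x α) := by
  classical
  have h1 : Measurable (fun z : V m => ((fun i j => kk r (mt z) (cR α) g i j) : V m)) :=
    meas_pair (fun a b => kk r a (cR α) b) (msr_kk r (cR α)) (fun i j => g i j)
  have h0 : Measurable (fun z : V m => Ψ (mt z)) := (hΨ.comp msr_cmt).measurable
  have h2 : Measurable (fun z : V m => Ψ (kk r (mt z) (cR α) g)) :=
    meas_fun Ψ h0 (fun z => kk r (mt z) (cR α) g) h1
  have hs : IsOpen {z : V m | (mt z).det ≠ 0} := by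
    have h : Continuous (fun z : V m => (mt z).det) := (msr_cmt (m := m)).matrix_det
    exact isOpen_ne_fun h continuous_const
  have h3 : Measurable ({z : V m | (mt z).det ≠ 0}.piecewise
      (fun z : V m => F (mt z) (ac N α x)) (fun _ => 0)) := by
    refine ContinuousOn.measurable_piecewise ?_ continuousOn_const hs.measurableSet
    exact (hF (ac N α x)).comp (msr_cmt (m := m)).continuousOn fun z hz => hz
  have h4 : fS Ψ F r g x α = fun z => Ψ (kk r (mt z) (cR α) g) *
      {z : V m | (mt z).det ≠ 0}.piecewise (fun z : V m => F (mt z) (ac N α x)) (fun _ => 0) z := by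
    funext z
    unfold fS
    by_cases h : (mt z).det = 0
    · rw [if_pos h, Set.piecewise_eq_of_notMem _ _ _ (show z ∉ {z : V m | (mt z).det ≠ 0} from
        fun h' => h' h), mul_zero]
    · rw [if_neg h, Set.piecewise_eq_of_mem _ _ _ (show z ∈ {z : V m | (mt z).det ≠ 0} from h)]
  rw [h4]
  exact h2.mul h3

theorem pf_SGV : T_UNK → T_AVG → T_PER → T_RHO → T_ORB → T_BLK → T_AC1 → T_ALU → T_SGV := by
  classical
  intro hUNK hAVG hPER hRHO hORB hBLK hAC1 hALU m N _ T D hS F lam mu hF Ψ hΨ g r x hg hr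
  have hm1 : 1 ≤ m := hS.one_le
  have hN2 : 2 ≤ N := hS.two_le
  obtain ⟨-, hac, -⟩ := hALU m N hm1 hN2
  have hdetD : ∀ z ∈ D, (mt z).det ≠ 0 := by
    intro z hz h0
    have h1 := (hS.dom.shell z hz).1
    unfold aN at h1
    rw [h0, abs_zero, Real.zero_rpow (by positivity)] at h1
    norm_num at h1
  have hmeas : ∀ α, Measurable (fS Ψ F r g x α) := fS_meas Ψ hΨ.cont F hF.cont r g x
  have hDm : MeasurableSet D := hS.dom.meas
  -- the sum is finite
  have hfin : ∫⁻ z in D, ∑' α : ZM m, ENNReal.ofReal ‖fS Ψ F r g x α z‖ ∂(hm m) < ⊤ := by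
    have h1 := hAC1 m N T D hS F lam mu hF Ψ hΨ g r x hg hr
    refine lt_of_le_of_lt (le_of_eq ?_) h1
    refine setLIntegral_congr_fun hDm fun z hz => ?_
    refine tsum_congr fun α => ?_
    unfold fS
    rw [if_neg (hdetD z hz)]
  -- invariance
  have hinv : ∀ γ : ZM m, IsUnit γ → ∀ (α : ZM m) (z : V m), (mt z).det ≠ 0 →
      fS Ψ F r g x (γ * α) (lm (cR γ) z) = fS Ψ F r g x α z := by
    intro γ hγ α z hz
    have h1 : mt (lm (cR γ) z) = cR γ * mt z := rfl
    have h2 : (cR γ * mt z).det ≠ 0 := by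
      rw [Matrix.det_mul]
      refine mul_ne_zero ?_ hz
      intro h0
      have := abs_det_unit hγ
      rw [h0, abs_zero] at this
      norm_num at this
    unfold fS
    rw [h1, if_neg h2, if_neg hz, cR_mul, kk_left r _ _ _ _ (abs_det_unit hγ),
      (hac γ α x).1, hF.auto γ hγ (mt z) (ac N α x) hz]
  -- the matrix 0
  have hzero : ∀ z, fS Ψ F r g x 0 z = 0 := by
    intro z
    have h1 : ¬ Pr (ac N (0 : ZM m) x) := by
      rintro ⟨v, hv⟩
      have h2 : ac N (0 : ZM m) x = 0 := by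
        unfold ac cQ
        have h3 : (0 : ZM m).map (fun n : ℤ => (n : ZMod N)) = 0 := by
          ext i j
          simp
        rw [h3, Matrix.zero_mulVec]
      rw [h2] at hv
      unfold dt at hv
      simp only [Pi.zero_apply, mul_zero, Finset.sum_const_zero] at hv
      have : Fact (1 < N) := ⟨hN2⟩
      exact zero_ne_one hv
    unfold fS
    rw [hF.supp _ _ h1, mul_zero, ite_self]
  -- one type
  have hk0 : ∀ k : ℕ, 0 < k → k < m →
      ∫ z in D, ∑' α : ZM m, (if ∃ γ : ZM m, IsUnit γ ∧ Ker k (γ * α) then fS Ψ F r g x α z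
        else 0) ∂(hm m) = 0 := by
    intro k hk hkm
    obtain ⟨κ, ν, hκm, hνm, hκ1, hν1, hνu, hκs, hκν⟩ := hRHO m k hkm.le
    obtain ⟨hint, heq⟩ := hUNK m D hm1 hS.dom k hk hkm κ ν hκm hνm hκ1 hν1 hκν (fS Ψ F r g x)
      hmeas hinv hfin
    rw [heq]
    have hz : ∀ α : {α : ZM m // Ker k α}, ∫ z in Shell m,
        ((κ z).toReal : ℂ) * (((ν z).toReal : ℂ) * fS Ψ F r g x α.1 z) ∂(hm m) = 0 := by
      rintro ⟨α, hα⟩
      obtain ⟨hα0, hαn⟩ := (hORB m).2.1 k α hα
      -- the invariance of the arguments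
      have hdet1 : ∀ u : V m, |(1 + nk k u : Mat m).det| = 1 := by
        intro u
        have h1 := (hBLK m k hkm.le).2.2.2.2 u 1
        rw [Matrix.mul_one, Matrix.det_one] at h1
        rw [h1, abs_one]
      have hkku : ∀ (u : V m) (z : V m), kk r ((1 + nk k u) * mt z) (cR α) g =
          kk r (mt z) (cR α) g := by
        intro u z
        have h1 := kk_left r (1 + nk k u) (mt z) (cR α) g (hdet1 u)
        rw [nk_mul u α hα0] at h1
        exact h1
      have hacn : ∀ n : ZM m, InN k n → ac N n (ac N α x) = ac N α x := by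
        intro n hn
        rw [← (hac n α x).1, hαn n hn]
      refine hAVG m k hm1 hkm.le κ hκm hκ1 hκs
        (fun z => ((ν z).toReal : ℂ) * fS Ψ F r g x α z) ?_ ?_ (hint α hα) ?_
      · exact (Complex.measurable_ofReal.comp hνm.ennreal_toReal).mul (hmeas α)
      · intro n hn z hz
        obtain ⟨u, hu⟩ := ((hBLK m k hkm.le).2.2.2.1 n).1 hn
        have h1 : ν (lm (cR n) z) = ν z := by
          rw [hu]
          exact hνu z u hz
        have h2 := hinv n ((hBLK m k hkm.le).2.1 n hn) α z hz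
        rw [hαn n hn] at h2
        show ((ν (lm (cR n) z)).toReal : ℂ) * fS Ψ F r g x α (lm (cR n) z) =
          ((ν z).toReal : ℂ) * fS Ψ F r g x α z
        rw [h1, h2]
      · intro z hz
        have h1 : ∀ u : V m, ((ν (lm (1 + nk k u) z)).toReal : ℂ) *
            fS Ψ F r g x α (lm (1 + nk k u) z) =
            (((ν z).toReal : ℂ) * Ψ (kk r (mt z) (cR α) g)) *
              F ((1 + nk k u) * mt z) (ac N α x) := by
          intro u
          have h2 : mt (lm (1 + nk k u) z) = (1 + nk k u) * mt z := rfl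
          have h3 : ((1 + nk k u) * mt z).det ≠ 0 := by
            rw [(hBLK m k hkm.le).2.2.2.2 u (mt z)]
            exact hz
          unfold fS
          rw [h2, if_neg h3, hνu z u hz, hkku u z]
          ring
        show ∫ u in Set.Icc (0 : V m) 1, ((ν (lm (1 + nk k u) z)).toReal : ℂ) *
            fS Ψ F r g x α (lm (1 + nk k u) z) = 0
        simp only [h1]
        rw [integral_const_mul, hPER m N T F lam mu hF k hk hkm (ac N α x) hacn (mt z) hz,
          mul_zero]
    rw [tsum_congr hz, tsum_zero]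
  -- the end
  have hstart : ∫ z in D, ∑' α : ZM m, (if α.det = 0 then
      Ψ (kk r (mt z) (cR α) g) * F (mt z) (ac N α x) else 0) ∂(hm m) =
      ∫ z in D, ∑' α : ZM m, (if α.det = 0 then fS Ψ F r g x α z else 0) ∂(hm m) := by
    refine setIntegral_congr_fun hDm fun z hz => ?_
    refine tsum_congr fun α => ?_
    unfold fS
    rw [if_neg (hdetD z hz)]
  rw [hstart, (swap D _ hmeas hfin fun α : ZM m => α.det = 0).2]
  have hsplit : ∀ α : ZM m, ∫ z in D, (if α.det = 0 then fS Ψ F r g x α z else 0) ∂(hm m) =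
      ∑ k ∈ Finset.Ioo 0 m, ∫ z in D, (if ∃ γ : ZM m, IsUnit γ ∧ Ker k (γ * α) then
        fS Ψ F r g x α z else 0) ∂(hm m) := by
    intro α
    by_cases h0 : α = 0
    · subst h0
      simp only [hzero, ite_self, integral_zero, Finset.sum_const_zero]
    · by_cases hd : α.det = 0
      · obtain ⟨k, hk, hkm, hγ⟩ := (hORB m).1 α hd h0
        rw [Finset.sum_eq_single_of_mem k (Finset.mem_Ioo.2 ⟨hk, hkm⟩)]
        · simp only [if_pos hd, if_pos hγ]
        · intro k' hk' hne
          rw [Finset.mem_Ioo] at hk'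
          have h1 : ¬ ∃ γ : ZM m, IsUnit γ ∧ Ker k' (γ * α) := fun h =>
            hne (type_unique hORB hkm.le hk'.2.le hγ h)
          simp only [if_neg h1, integral_zero]
      · simp only [if_neg hd, integral_zero]
        refine (Finset.sum_eq_zero fun k hk => ?_).symm
        rw [Finset.mem_Ioo] at hk
        have h1 : ¬ ∃ γ : ZM m, IsUnit γ ∧ Ker k (γ * α) := by
          rintro ⟨γ, hγ, h⟩
          exact hd (type_det hk.1 hk.2 hγ h)
        simp only [if_neg h1, integral_zero]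
  rw [tsum_congr hsplit, Summable.tsum_finsetSum fun k _ => (swap D _ hmeas hfin
    fun α : ZM m => ∃ γ : ZM m, IsUnit γ ∧ Ker k (γ * α)).1]
  refine Finset.sum_eq_zero fun k hk => ?_
  rw [Finset.mem_Ioo] at hk
  rw [← (swap D _ hmeas hfin fun α : ZM m => ∃ γ : ZM m, IsUnit γ ∧ Ker k (γ * α)).2]
  exact hk0 k hk.1 hk.2

end Pool.Agent.H53.GU
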